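import Mathlib

/-!
# Germs of one-dimensional `C^r` diffeomorphisms and distortion elements

Definitions for MP_b44c39_an (integer `r`).
-/

open Filter Topology

namespace GermDist46

/-- Real functions fixing `0` that are `C^r` near `0` (`r` a natural number). -/
structure CrFun (r : ℕ) where
  toFun : ℝ → ℝ
  map_zero' : toFun 0 = 0
  contDiffAt' : ContDiffAt ℝ r toFun 0

namespace CrFun

variable {r : ℕ}

theorem ext' {f g : CrFun r} (h : f.toFun = g.toFun) : f = g := by
  cases f; cases g; cases h; rfl

/-- Composition makes `CrFun r` a monoid: `(f * g) x = f (g x)`. -/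
instance : Monoid (CrFun r) where
  mul f g := ⟨f.toFun ∘ g.toFun, by simp [f.map_zero', g.map_zero'], by
    have hf : ContDiffAt ℝ r f.toFun (g.toFun 0) := by
      rw [g.map_zero']; exact f.contDiffAt'
    exact hf.comp 0 g.contDiffAt'⟩
  one := ⟨id, rfl, contDiffAt_id⟩
  mul_assoc _ _ _ := rfl
  one_mul _ := rfl
  mul_one _ := rfl

theorem mul_toFun (f g : CrFun r) : (f * g).toFun = f.toFun ∘ g.toFun := rfl

theorem one_toFun : (1 : CrFun r).toFun = id := rfl

end CrFun

/-- Equality of germs at `0`, as a congruence on the monoid `CrFun r`. -/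
def germCon (r : ℕ) : Con (CrFun r) where
  r f g := f.toFun =ᶠ[𝓝 0] g.toFun
  iseqv := ⟨fun _ => EventuallyEq.rfl, fun h => h.symm, fun h₁ h₂ => h₁.trans h₂⟩
  mul' := by
    intro f g h k hfg hhk
    have hk : Tendsto k.toFun (𝓝 0) (𝓝 0) := by
      have := k.contDiffAt'.continuousAt.tendsto
      rwa [k.map_zero'] at this
    have h1 : (fun x => g.toFun (k.toFun x)) =ᶠ[𝓝 0] (fun x => f.toFun (k.toFun x)) :=
      (hk.eventually hfg.symm : _)
    show f.toFun ∘ h.toFun =ᶠ[𝓝 0] g.toFun ∘ k.toFun
    filter_upwards [hhk, h1] with x hx1 hx2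
    simp only [Function.comp_apply] at *
    rw [hx1]
    exact hx2.symm

/-- The monoid of germs at `0` of `C^r` maps fixing `0`. -/
abbrev GermMonoid (r : ℕ) : Type := (germCon r).Quotient

/-- The group of germs at `0` of `C^r` diffeomorphisms fixing `0`: the germs of `C^r` maps
that have an inverse germ of class `C^r`. -/
abbrev GermGroup (r : ℕ) : Type := (GermMonoid r)ˣ

/-- `Represents g f` says that the germ `g` is the germ at `0` of the function `f`. -/
def Represents {r : ℕ} (g : GermGroup r) (f : ℝ → ℝ) : Prop :=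
  ∃ F : CrFun r, F.toFun = f ∧ ((F : GermMonoid r)) = (g : GermMonoid r)

/-- The word length `l_S(h)`: the least `k` such that `h` is a product of `k` elements of
`S ∪ S⁻¹` (it is `0` by convention when `h` is not such a product). -/
noncomputable def wordLength {G : Type*} [Group G] (S : Set G) (h : G) : ℕ :=
  sInf {k | ∃ L : List G, L.length = k ∧ (∀ x ∈ L, x ∈ S ∨ x⁻¹ ∈ S) ∧ L.prod = h}

/-- `h` is distorted in the finitely generated group `H`. -/
def IsDistorted {H : Type*} [Group H] (h : H) : Prop :=
  ∃ S : Finset H, Subgroup.closure (S : Set H) = ⊤ ∧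
    Tendsto (fun n : ℕ => (wordLength (S : Set H) (h ^ n) : ℝ) / n) atTop (𝓝 0)

/-- `g` is a distortion element of `G`: it is distorted in some finitely generated subgroup
of `G` containing it. -/
def IsDistortionElement {G : Type*} [Group G] (g : G) : Prop :=
  ∃ (H : Subgroup G) (hg : g ∈ H), IsDistorted (⟨g, hg⟩ : H)

end GermDist46
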