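import Pool.Agent.LibGermDist46.Rep

/-!
# The necessary criterion for distortion in `G^r`
-/

open Filter Topology Asymptotics Polynomial

namespace GermDist46

variable {m : ℕ}

theorem CrFun.hasDeriv (F : CrFun (m + 2)) : HasDerivAt F.toFun (deriv F.toFun 0) 0 :=
  (F.contDiffAt'.differentiableAt (by simp)).hasDerivAt

theorem deriv_mul' (F H : CrFun (m + 2)) :
    deriv (F * H).toFun 0 = deriv F.toFun 0 * deriv H.toFun 0 := by
  have h1 : HasDerivAt F.toFun (deriv F.toFun 0) (H.toFun 0) := by
    rw [H.map_zero']; exact F.hasDeriv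
  exact (h1.comp 0 H.hasDeriv).deriv

/-- The derivative at `0` of a germ. -/
noncomputable def derG (x : GermMonoid (m + 2)) : ℝ :=
  Con.liftOn x (fun F => deriv F.toFun 0) fun _ _ h => Filter.EventuallyEq.deriv_eq h

/-- The normalised class of a germ in `V r`. -/
noncomputable def sigG (x : GermMonoid (m + 2)) : V (m + 2) :=
  Con.liftOn x (fun F => (deriv F.toFun 0)⁻¹ • (Submodule.Quotient.mk F.toFun : V (m + 2)))
    fun F H h => by
      have h' : F.toFun =ᶠ[𝓝 0] H.toFun := h
      have h1 : deriv F.toFun 0 = deriv H.toFun 0 := Filter.EventuallyEq.deriv_eq h'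
      have h2 : (Submodule.Quotient.mk F.toFun : V (m + 2)) = Submodule.Quotient.mk H.toFun := by
        rw [Submodule.Quotient.eq]
        refine isBigO_mem_W ?_
        refine EventuallyEq.trans_isBigO (f₂ := fun _ => (0 : ℝ)) ?_ (isBigO_zero _ _)
        filter_upwards [h'] with x hx
        simp [hx]
      show (deriv F.toFun 0)⁻¹ • (Submodule.Quotient.mk F.toFun : V (m + 2)) = _
      rw [h1, h2]

theorem derG_coe (F : CrFun (m + 2)) : derG (F : GermMonoid (m + 2)) = deriv F.toFun 0 := rfl

theorem sigG_coe (F : CrFun (m + 2)) : sigG (F : GermMonoid (m + 2)) =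
    (deriv F.toFun 0)⁻¹ • (Submodule.Quotient.mk F.toFun : V (m + 2)) := rfl

theorem derG_mul (x y : GermMonoid (m + 2)) : derG (x * y) = derG x * derG y := by
  induction x using Con.induction_on with
  | H F =>
    induction y using Con.induction_on with
    | H H => exact deriv_mul' F H

theorem derG_one : derG (1 : GermMonoid (m + 2)) = 1 := by
  change deriv (id : ℝ → ℝ) 0 = 1
  simp

theorem derG_unit_ne_zero (g : GermGroup (m + 2)) : derG (g : GermMonoid (m + 2)) ≠ 0 := by
  intro h
  have h1 : (g : GermMonoid (m + 2)) * ((g⁻¹ : GermGroup (m + 2)) : GermMonoid (m + 2)) = 1 :=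
    Units.mul_inv g
  have h2 := congrArg derG h1
  rw [derG_mul, h, zero_mul, derG_one] at h2
  exact zero_ne_one h2

theorem sigG_one : sigG (1 : GermMonoid (m + 2)) = 0 := by
  change (deriv (id : ℝ → ℝ) 0)⁻¹ • (Submodule.Quotient.mk (id : ℝ → ℝ) : V (m + 2)) = 0
  have : (Submodule.Quotient.mk (id : ℝ → ℝ) : V (m + 2)) = 0 := by
    rw [Submodule.Quotient.mk_eq_zero]
    have := poly_mem_W (m + 2) (X : ℝ[X])
    simp only [eval_X] at this
    exact this
  rw [this, smul_zero]

theorem sigG_mul {x : GermMonoid (m + 2)} (hx : derG x ≠ 0) (y : GermMonoid (m + 2)) :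
    sigG (x * y) = scale (m + 2) (derG y) (sigG x) + sigG y := by
  induction x using Con.induction_on with
  | H F =>
    induction y using Con.induction_on with
    | H H =>
      have hx' : deriv F.toFun 0 ≠ 0 := hx
      have hprod : (F : GermMonoid (m + 2)) * (H : GermMonoid (m + 2)) =
          ((F * H : CrFun (m + 2)) : GermMonoid (m + 2)) := rfl
      rw [hprod, sigG_coe, sigG_coe, sigG_coe, derG_coe, deriv_mul']
      set a := deriv F.toFun 0 with ha
      set b := deriv H.toFun 0 with hb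
      have hE := comp_mem_W F.contDiffAt' H.contDiffAt' F.map_zero' H.map_zero'
      rw [← ha, ← hb] at hE
      have hE' : (Submodule.Quotient.mk (F * H).toFun : V (m + 2)) =
          a • Submodule.Quotient.mk H.toFun +
            (Submodule.Quotient.mk (fun x => F.toFun (b * x)) : V (m + 2)) := by
        rw [← Submodule.Quotient.mk_smul, ← Submodule.Quotient.mk_add, Submodule.Quotient.eq]
        convert hE using 1
        funext x
        simp only [CrFun.mul_toFun, Pi.sub_apply, Pi.add_apply, Pi.smul_apply, smul_eq_mul,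
          Function.comp_apply]
        ring
      rw [hE', ← Submodule.Quotient.mk_smul (p := W (m + 2)) a⁻¹, scale_mk, smul_add, smul_smul]
      have h1 : (a * b)⁻¹ * a = b⁻¹ := by
        rcases eq_or_ne b 0 with hb0 | hb0
        · simp [hb0]
        · field_simp
      have h2 : (a * b)⁻¹ • (Submodule.Quotient.mk (fun x => F.toFun (b * x)) : V (m + 2)) =
          Submodule.Quotient.mk (scaleFun b (a⁻¹ • F.toFun)) := by
        rw [← Submodule.Quotient.mk_smul]
        congr 1
        funext x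
        simp only [Pi.smul_apply, smul_eq_mul, scaleFun_apply, mul_inv]
        ring
      rw [h1, h2]
      exact add_comm _ _

theorem sigG_list (L : List (GermGroup (m + 2))) :
    ∃ L' : List (ℝ × GermGroup (m + 2)), L'.length = L.length ∧
      (∀ p ∈ L', p.1 ≠ 0 ∧ p.2 ∈ L) ∧
      sigG (L.prod : GermMonoid (m + 2)) =
        (L'.map fun p => scale (m + 2) p.1 (sigG (p.2 : GermMonoid (m + 2)))).sum := by
  induction L with
  | nil => exact ⟨[], rfl, by simp, by simp [sigG_one]⟩
  | cons s L ih =>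
    obtain ⟨L', h1, h2, h3⟩ := ih
    refine ⟨(derG ((L.prod : GermGroup (m + 2)) : GermMonoid (m + 2)), s) :: L', by simp [h1], ?_, ?_⟩
    · intro p hp
      rcases List.mem_cons.1 hp with rfl | hp
      · exact ⟨derG_unit_ne_zero _, by simp⟩
      · exact ⟨(h2 p hp).1, by simp [(h2 p hp).2]⟩
    · rw [List.prod_cons, Units.val_mul, sigG_mul (derG_unit_ne_zero s), h3]
      simp

theorem sigG_pow {g : GermGroup (m + 2)} (hg : derG (g : GermMonoid (m + 2)) = 1) (n : ℕ) :
    sigG ((g ^ n : GermGroup (m + 2)) : GermMonoid (m + 2)) =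
      n • sigG (g : GermMonoid (m + 2)) := by
  induction n with
  | zero => simp [sigG_one]
  | succ n ih =>
    rw [pow_succ, Units.val_mul, sigG_mul (derG_unit_ne_zero _), hg, scale_one, ih, succ_nsmul]

/-- Rescaling by a nonzero `λ` is the action of a group element on `τ` or on `scale (-1) τ`. -/
theorem scale_eq_single {l : ℝ} (hl : l ≠ 0) (v : V (m + 2)) :
    ∃ w, (w = v ∨ w = scale (m + 2) (-1) v) ∧
      scale (m + 2) l v = (AddMonoidAlgebra.single (Real.log |l|) (1 : ℤ) : GR) • w := by
  rcases lt_or_gt_of_ne hl with h | h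
  · refine ⟨scale (m + 2) (-1) v, Or.inr rfl, ?_⟩
    rw [single_smul, Real.exp_log (abs_pos.2 hl), scale_scale, abs_of_neg h]
    simp
  · refine ⟨v, Or.inl rfl, ?_⟩
    rw [single_smul, Real.exp_log (abs_pos.2 hl), abs_of_pos h]

theorem word_bound {g : GermGroup (m + 2)} (hg : derG (g : GermMonoid (m + 2)) = 1)
    (hv : ∀ c : GR, c • sigG (g : GermMonoid (m + 2)) = 0 → c = 0)
    (S : Finset (GermGroup (m + 2))) :
    ∃ C : ℕ, ∀ (n : ℕ) (L : List (GermGroup (m + 2))), (∀ x ∈ L, x ∈ S ∨ x⁻¹ ∈ S) →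
      L.prod = g ^ n → n ≤ C * L.length := by
  classical
  set S' : Finset (GermGroup (m + 2)) := S ∪ S.image (fun x => x⁻¹) with hS'
  set T : Finset (V (m + 2)) := S'.image (fun s : GermGroup (m + 2) => sigG (s : GermMonoid (m + 2))) ∪
    S'.image (fun s : GermGroup (m + 2) =>
      scale (m + 2) (-1) (sigG (s : GermMonoid (m + 2)))) with hT
  obtain ⟨C, hC⟩ := exists_linear_bound (sigG (g : GermMonoid (m + 2))) hv T
  refine ⟨C, fun n L hL hprod => ?_⟩
  obtain ⟨L', h1, h2, h3⟩ := sigG_list L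
  have hmem : ∀ p ∈ L', p.2 ∈ S' := by
    intro p hp
    rcases hL _ (h2 p hp).2 with h | h
    · exact Finset.mem_union_left _ h
    · refine Finset.mem_union_right _ (Finset.mem_image.2 ⟨_, h, inv_inv _⟩)
  have key : ∀ L' : List (ℝ × GermGroup (m + 2)), (∀ p ∈ L', p.1 ≠ 0 ∧ p.2 ∈ S') →
      ∃ L'' : List (ℝ × V (m + 2)), L''.length = L'.length ∧ (∀ p ∈ L'', p.2 ∈ T) ∧
        (L'.map fun p => scale (m + 2) p.1 (sigG (p.2 : GermMonoid (m + 2)))).sum =
          (L''.map fun p => (AddMonoidAlgebra.single p.1 (1 : ℤ) : GR) • p.2).sum := by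
    intro L'
    induction L' with
    | nil => intro _; exact ⟨[], rfl, by simp, by simp⟩
    | cons p L' ih =>
      intro h
      obtain ⟨L'', k1, k2, k3⟩ := ih fun q hq => h q (by simp [hq])
      obtain ⟨hp1, hp2⟩ := h p (by simp)
      obtain ⟨w, hw, hw'⟩ := scale_eq_single hp1 (sigG (p.2 : GermMonoid (m + 2)))
      refine ⟨(Real.log |p.1|, w) :: L'', by simp [k1], ?_, ?_⟩
      · intro q hq
        rcases List.mem_cons.1 hq with rfl | hq
        · rcases hw with rfl | rfl
          · exact Finset.mem_union_left _ (Finset.mem_image_of_mem _ hp2)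
          · exact Finset.mem_union_right _
              (Finset.mem_image_of_mem
                (fun s : GermGroup (m + 2) =>
                  scale (m + 2) (-1) (sigG (s : GermMonoid (m + 2)))) hp2)
        · exact k2 q hq
      · simp only [List.map_cons, List.sum_cons]
        rw [k3, hw']
  obtain ⟨L'', k1, k2, k3⟩ := key L' fun p hp => ⟨(h2 p hp).1, hmem p hp⟩
  have := hC n L'' k2 (by rw [← k3, ← h3, hprod, sigG_pow hg])
  rw [← h1, ← k1]
  exact this

/-- **Torsion criterion (abstract form).** -/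
theorem torsion_of_distortion {g : GermGroup (m + 2)} (hg : derG (g : GermMonoid (m + 2)) = 1)
    (hd : IsDistortionElement g) :
    ∃ c : GR, c ≠ 0 ∧ c • sigG (g : GermMonoid (m + 2)) = 0 := by
  classical
  by_contra hcon
  push Not at hcon
  have hv : ∀ c : GR, c • sigG (g : GermMonoid (m + 2)) = 0 → c = 0 := by
    intro c hc
    by_contra h
    exact hcon c h hc
  obtain ⟨H, hgH, S, hS, hlim⟩ := hd
  obtain ⟨C, hC⟩ := word_bound hg hv (S.image (fun x : H => (x : GermGroup (m + 2))))
  have hlow : ∀ n : ℕ, (n : ℝ) ≤ C * (wordLength (S : Set H) ((⟨g, hgH⟩ : H) ^ n) : ℝ) := by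
    intro n
    have hne : {k | ∃ L : List H, L.length = k ∧ (∀ x ∈ L, x ∈ (S : Set H) ∨ x⁻¹ ∈ (S : Set H)) ∧
        L.prod = (⟨g, hgH⟩ : H) ^ n}.Nonempty := by
      have hmem : (⟨g, hgH⟩ : H) ^ n ∈ Subgroup.closure (S : Set H) := by
        rw [hS]; trivial
      have hmem' : (⟨g, hgH⟩ : H) ^ n ∈ Submonoid.closure ((S : Set H) ∪ (S : Set H)⁻¹) := by
        rw [← Subgroup.closure_toSubmonoid]
        exact hmem
      obtain ⟨L, hL1, hL2⟩ := Submonoid.exists_list_of_mem_closure hmem'
      refine ⟨L.length, L, rfl, fun x hx => ?_, hL2⟩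
      rcases hL1 x hx with h | h
      · exact Or.inl h
      · exact Or.inr (by simpa using h)
    obtain ⟨L, hL1, hL2, hL3⟩ := Nat.sInf_mem hne
    have h1 := hC n (L.map (fun x : H => (x : GermGroup (m + 2)))) ?_ ?_
    · rw [List.length_map, hL1] at h1
      exact_mod_cast h1
    · intro x hx
      obtain ⟨y, hy, rfl⟩ := List.mem_map.1 hx
      rcases hL2 y hy with h | h
      · exact Or.inl (Finset.mem_image.2 ⟨y, h, rfl⟩)
      · exact Or.inr (Finset.mem_image.2 ⟨y⁻¹, h, rfl⟩)
    · have := congrArg (fun x : H => (x : GermGroup (m + 2))) hL3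
      simpa using this
  have hev := hlim.eventually (gt_mem_nhds (show (0 : ℝ) < 1 / (C + 1) by positivity))
  obtain ⟨n, hn, hn1⟩ := (hev.and (eventually_ge_atTop 1)).exists
  have hnpos : (0 : ℝ) < n := by exact_mod_cast hn1
  rw [div_lt_div_iff₀ hnpos (by positivity)] at hn
  have h2 := hlow n
  set w : ℝ := (wordLength (S : Set H) ((⟨g, hgH⟩ : H) ^ n) : ℝ) with hw
  have hw0 : 0 ≤ w := Nat.cast_nonneg _
  nlinarith

/-- **Torsion criterion.** If a germ with derivative `1` is a distortion element of `G^r`,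
`r ≥ 2`, then finitely many of its rescalings satisfy a nontrivial integral linear relation
modulo polynomials and `O(x^(r+1))`. -/
theorem relation_of_distortion {r : ℕ} (hr : 2 ≤ r) {g : GermGroup r} {f : ℝ → ℝ}
    (hgf : Represents g f) (hf : deriv f 0 = 1) (hd : IsDistortionElement g) :
    ∃ (s : Finset ℝ) (n : ℝ → ℤ) (p : ℝ[X]), s.Nonempty ∧ (∀ l ∈ s, 0 < l ∧ n l ≠ 0) ∧
      (fun x => ∑ l ∈ s, (n l : ℝ) * (l⁻¹ * f (l * x)) - p.eval x) =O[𝓝 0]
        fun x : ℝ => x ^ (r + 1) := by
  classical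
  obtain ⟨m, rfl⟩ : ∃ m, r = m + 2 := ⟨r - 2, by omega⟩
  obtain ⟨F, rfl, hF⟩ := hgf
  have hg : derG (g : GermMonoid (m + 2)) = 1 := by rw [← hF]; exact hf
  obtain ⟨c, hc0, hc⟩ := torsion_of_distortion hg hd
  have hsig : sigG (g : GermMonoid (m + 2)) = Submodule.Quotient.mk F.toFun := by
    rw [← hF, sigG_coe, hf]; simp
  rw [hsig, smul_eq_sum] at hc
  have hsum : (Submodule.Quotient.mk (∑ μ ∈ c.coeff.support,
      (c.coeff μ) • scaleFun (Real.exp μ) F.toFun) : V (m + 2)) = 0 := by
    rw [← hc]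
    have : ∀ μ ∈ c.coeff.support, (c.coeff μ) • scale (m + 2) (Real.exp μ)
        (Submodule.Quotient.mk F.toFun) =
        (W (m + 2)).mkQ ((c.coeff μ) • scaleFun (Real.exp μ) F.toFun) := by
      intro μ _
      rw [scale_mk, map_zsmul]
      rfl
    rw [Finset.sum_congr rfl this, ← map_sum]
    rfl
  rw [Submodule.Quotient.mk_eq_zero] at hsum
  obtain ⟨p, hp⟩ := hsum
  have hinj : Set.InjOn Real.exp (c.coeff.support : Set ℝ) := Real.exp_injective.injOn
  refine ⟨c.coeff.support.image Real.exp, fun l => c.coeff (Real.log l), p, ?_, ?_, ?_⟩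
  · rw [Finset.image_nonempty, Finsupp.support_nonempty_iff]
    intro h
    apply hc0
    cases c
    simp only at h
    subst h
    rfl
  · intro l hl
    obtain ⟨μ, hμ, rfl⟩ := Finset.mem_image.1 hl
    refine ⟨Real.exp_pos μ, ?_⟩
    simp only [Real.log_exp]
    exact Finsupp.mem_support_iff.1 hμ
  · refine hp.congr_left fun x => ?_
    rw [Finset.sum_image hinj]
    congr 1
    rw [Finset.sum_apply]
    refine Finset.sum_congr rfl fun μ _ => ?_
    simp [Real.log_exp, scaleFun_apply]

end GermDist46
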