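import Mathlib

/-!
# A linear lower bound for combinations in a module over a group ring
-/

open scoped nonZeroDivisors

namespace GermDist46

/-- The integral group ring of the additive group `ℝ`; it is a commutative domain. -/
abbrev GR : Type := AddMonoidAlgebra ℤ ℝ

/-- The `ℓ¹` norm on the group ring. -/
noncomputable def l1 (c : GR) : ℤ := ∑ x ∈ c.coeff.support, |c.coeff x|

theorem l1_eq_of_subset (c : GR) {s : Finset ℝ} (hs : c.coeff.support ⊆ s) :
    l1 c = ∑ x ∈ s, |c.coeff x| := by
  unfold l1
  refine Finset.sum_subset hs fun x _ hx => ?_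
  rw [Finsupp.notMem_support_iff.1 hx, abs_zero]

theorem l1_zero : l1 0 = 0 := by simp [l1]

theorem l1_add_le (c d : GR) : l1 (c + d) ≤ l1 c + l1 d := by
  classical
  set s := c.coeff.support ∪ d.coeff.support with hs
  have h1 : (c + d).coeff.support ⊆ s := by
    have : (c + d).coeff = c.coeff + d.coeff := rfl
    rw [this]
    exact Finsupp.support_add
  rw [l1_eq_of_subset (c + d) h1, l1_eq_of_subset c (s := s) Finset.subset_union_left,
    l1_eq_of_subset d (s := s) Finset.subset_union_right, ← Finset.sum_add_distrib]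
  refine Finset.sum_le_sum fun x _ => ?_
  have : (c + d).coeff x = c.coeff x + d.coeff x := rfl
  rw [this]
  exact abs_add_le _ _

theorem l1_single_mul (μ : ℝ) (c : GR) : l1 (AddMonoidAlgebra.single μ 1 * c) = l1 c := by
  unfold l1
  refine Finset.sum_bij' (fun x _ => -μ + x) (fun x _ => μ + x) ?_ ?_ ?_ ?_ ?_
  · intro x hx
    rw [Finsupp.mem_support_iff] at hx ⊢
    rw [AddMonoidAlgebra.coeff_single_mul_apply, one_mul] at hx
    exact hx
  · intro x hx
    rw [Finsupp.mem_support_iff] at hx ⊢
    rw [AddMonoidAlgebra.coeff_single_mul_apply, one_mul]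
    simpa using hx
  · intro x _; simp
  · intro x _; simp
  · intro x _
    rw [AddMonoidAlgebra.coeff_single_mul_apply, one_mul]

theorem l1_nsmul (n : ℕ) (c : GR) : l1 (n • c) = n * l1 c := by
  rcases Nat.eq_zero_or_pos n with rfl | hn
  · simp [l1_zero]
  · have h : ∀ x, (n • c).coeff x = n * c.coeff x := by
      intro x
      have : (n • c).coeff = n • c.coeff := rfl
      rw [this]; simp
    have hs : (n • c).coeff.support = c.coeff.support := by
      ext x
      rw [Finsupp.mem_support_iff, Finsupp.mem_support_iff, h]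
      have : (n : ℤ) ≠ 0 := by exact_mod_cast hn.ne'
      rw [mul_ne_zero_iff]
      exact ⟨fun h => h.2, fun h => ⟨this, h⟩⟩
    unfold l1
    rw [hs, Finset.mul_sum]
    refine Finset.sum_congr rfl fun x _ => ?_
    rw [h, abs_mul]; simp

theorem one_le_l1 {c : GR} (hc : c ≠ 0) : 1 ≤ l1 c := by
  have : c.coeff ≠ 0 := by
    intro h
    apply hc
    cases c
    simp only at h
    subst h
    rfl
  obtain ⟨x, hx⟩ := Finsupp.support_nonempty_iff.2 this
  have h1 : 1 ≤ |c.coeff x| := Int.one_le_abs (Finsupp.mem_support_iff.1 hx)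
  exact h1.trans (Finset.single_le_sum (f := fun x => |c.coeff x|) (fun _ _ => abs_nonneg _) hx)

variable {M : Type*} [AddCommGroup M] [Module GR M]

/-- A non-torsion vector is detected by a linear map to the fraction field, which may be taken
integral on a given finite set. -/
theorem exists_functional (v : M) (hv : ∀ c : GR, c • v = 0 → c = 0) (T : Finset M) :
    ∃ φ : M →ₗ[GR] FractionRing GR, φ v ≠ 0 ∧
      ∀ t ∈ T, ∃ c : GR, φ t = algebraMap GR (FractionRing GR) c := by
  classical
  set S := nonZeroDivisors GR with hS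
  set ι := LocalizedModule.mkLinearMap S M with hι
  have hvι : ι v ≠ 0 := by
    intro h
    obtain ⟨s, hs⟩ := (IsLocalizedModule.eq_zero_iff S ι).1 h
    have : (s : GR) = 0 := hv _ hs
    exact nonZeroDivisors.ne_zero s.2 this
  obtain ⟨ψ, hψ⟩ := Module.Projective.exists_dual_ne_zero (FractionRing GR)
    (V := LocalizedModule S M) hvι
  obtain ⟨b, hb⟩ := IsLocalization.exist_integer_multiples (M := S) (S := FractionRing GR) T
    (fun t => ψ (ι t))
  refine ⟨(b : GR) • ((ψ.restrictScalars GR).comp ι), ?_, ?_⟩
  · simp only [LinearMap.smul_apply, LinearMap.comp_apply, LinearMap.coe_restrictScalars]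
    rw [Algebra.smul_def]
    refine mul_ne_zero ?_ hψ
    exact (map_ne_zero_iff _ (IsFractionRing.injective GR (FractionRing GR))).2
      (nonZeroDivisors.ne_zero b.2)
  · intro t ht
    obtain ⟨c, hc⟩ := hb t ht
    exact ⟨c, by simpa using hc.symm⟩

/-- **Linear lower bound.** If `v` is not torsion over the group ring and `n v` is a sum of `l`
translates of elements of a finite set `T`, then `n ≤ C l` with `C` depending only on `v, T`. -/
theorem exists_linear_bound (v : M) (hv : ∀ c : GR, c • v = 0 → c = 0) (T : Finset M) :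
    ∃ C : ℕ, ∀ (n : ℕ) (L : List (ℝ × M)), (∀ p ∈ L, p.2 ∈ T) →
      n • v = (L.map fun p => (AddMonoidAlgebra.single p.1 (1 : ℤ) : GR) • p.2).sum →
      n ≤ C * L.length := by
  classical
  obtain ⟨φ, hφv, hφ⟩ := exists_functional v hv (insert v T)
  set A := algebraMap GR (FractionRing GR) with hA
  have hAinj : Function.Injective A := IsFractionRing.injective GR (FractionRing GR)
  choose c hc using hφ
  set d : M → GR := fun t => if h : t ∈ insert v T then c t h else 0 with hd
  have hd' : ∀ t ∈ insert v T, φ t = A (d t) := by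
    intro t ht
    simp only [hd, ht, dif_pos]
    exact hc t ht
  have hdv : d v ≠ 0 := by
    intro h
    apply hφv
    rw [hd' v (Finset.mem_insert_self _ _), h, map_zero]
  set C : ℕ := ∑ t ∈ T, (l1 (d t)).toNat with hC
  have hCb : ∀ t ∈ T, l1 (d t) ≤ C := by
    intro t ht
    have h1 : (l1 (d t)).toNat ≤ C :=
      Finset.single_le_sum (f := fun t => (l1 (d t)).toNat) (fun _ _ => Nat.zero_le _) ht
    exact le_trans (Int.self_le_toNat _) (by exact_mod_cast h1)
  refine ⟨C, fun n L hL h => ?_⟩
  have h1 : n • d v = (L.map fun p => (AddMonoidAlgebra.single p.1 (1 : ℤ) : GR) * d p.2).sum := by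
    apply hAinj
    have h2 := congrArg φ h
    rw [map_nsmul, hd' v (Finset.mem_insert_self _ _), map_list_sum, List.map_map] at h2
    rw [map_nsmul, h2, map_list_sum, List.map_map]
    congr 1
    refine List.map_congr_left fun p hp => ?_
    simp only [Function.comp_apply]
    rw [map_smul, hd' p.2 (Finset.mem_insert_of_mem (hL p hp)), Algebra.smul_def, ← map_mul]
  have h2 : l1 (n • d v) ≤ C * L.length := by
    rw [h1]
    clear h h1
    induction L with
    | nil => simp [l1_zero]
    | cons p L ih =>
      have hp : p.2 ∈ T := hL p (by simp)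
      have ih' := ih (fun q hq => hL q (by simp [hq]))
      simp only [List.map_cons, List.sum_cons, List.length_cons]
      refine le_trans (l1_add_le _ _) ?_
      rw [l1_single_mul]
      have := hCb _ hp
      push_cast
      linarith
  rw [l1_nsmul] at h2
  have h3 : (n : ℤ) ≤ n * l1 (d v) := by
    have := one_le_l1 hdv
    nlinarith [Int.natCast_nonneg n]
  exact_mod_cast h3.trans h2

end GermDist46
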