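import Pool.Agent.LibGermDist46.Taylor

/-!
# The crossed-homomorphism identity modulo `W r`
-/

open Filter Topology Asymptotics Polynomial

namespace GermDist46

/-- `h ^ k` is a polynomial up to `O(x^(m+2))` for `k ≥ 2`, if `h` is one up to `o(x^(m+1))`. -/
theorem pow_poly {m : ℕ} {h : ℝ → ℝ} {P : ℝ[X]} (hP0 : P.eval 0 = 0)
    (hP : (fun x => h x - P.eval x) =o[𝓝 0] fun x => x ^ (m + 1)) (k : ℕ) :
    (fun x => h x ^ (k + 2) - (P ^ (k + 2)).eval x) =O[𝓝 0] fun x => x ^ (m + 2) := by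
  have hφ : (fun x => h x - P.eval x) =O[𝓝 0] fun x => x ^ (m + 1) := hP.isBigO
  have hx1 : (fun x : ℝ => x ^ (m + 1)) =O[𝓝 0] fun x : ℝ => x := by
    have : (fun x : ℝ => x ^ (m + 1)) =O[𝓝 0] fun x : ℝ => x ^ 1 :=
      (isBigO_pow_pow_nhds_zero (by omega))
    simpa using this
  have hPx := poly_isBigO hP0
  have hhx : h =O[𝓝 0] fun x : ℝ => x := by
    have := (hφ.trans hx1).add hPx
    refine this.congr_left fun x => by ring
  have hmul : ∀ {f g : ℝ → ℝ} {a b : ℕ}, f =O[𝓝 0] (fun x : ℝ => x ^ a) →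
      g =O[𝓝 0] (fun x : ℝ => x ^ b) → (fun x => f x * g x) =O[𝓝 0] fun x : ℝ => x ^ (a + b) := by
    intro f g a b hf hg
    refine (hf.mul hg).congr_right fun x => by ring
  induction k with
  | zero =>
    -- h² - P² = (h - P)(h + P)
    have h1 : (fun x => h x + P.eval x) =O[𝓝 0] fun x : ℝ => x ^ 1 := by
      simpa using hhx.add hPx
    refine (hmul hφ h1).congr_left fun x => ?_
    simp only [zero_add, eval_pow]; ring
  | succ k ih =>
    -- h^(k+3) - P^(k+3) = h (h^(k+2) - P^(k+2)) + (h - P) P^(k+2)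
    have hh : h =O[𝓝 0] fun x : ℝ => x ^ 1 := by simpa using hhx
    have h1 := hmul hh ih
    have h1' : (fun x => h x * (h x ^ (k + 2) - (P ^ (k + 2)).eval x)) =O[𝓝 0]
        fun x : ℝ => x ^ (m + 2) := h1.trans (isBigO_pow_pow_nhds_zero (by omega))
    have hPk : (fun x => (P ^ (k + 2)).eval x) =O[𝓝 0] fun x : ℝ => x ^ 1 := by
      have h0 : (P ^ (k + 2)).eval 0 = 0 := by simp [hP0]
      simpa using poly_isBigO h0
    have h2 := hmul hφ hPk
    have h3 := h1'.add h2
    refine h3.congr_left fun x => ?_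
    simp only [eval_pow]; ring

/-- Polynomial without constant and linear term composed with `h` is in `W`. -/
theorem eval_comp_mem_W {m : ℕ} {h : ℝ → ℝ} {P : ℝ[X]} (hP0 : P.eval 0 = 0)
    (hP : (fun x => h x - P.eval x) =o[𝓝 0] fun x => x ^ (m + 1)) (Q : ℝ[X])
    (hQ0 : Q.coeff 0 = 0) (hQ1 : Q.coeff 1 = 0) :
    (fun x => Q.eval (h x)) ∈ W (m + 1) := by
  have key : (fun x => Q.eval (h x)) =
      ∑ i ∈ Finset.range (Q.natDegree + 1), Q.coeff i • fun x => h x ^ i := by
    funext x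
    rw [eval_eq_sum_range]
    simp
  rw [key]
  refine Submodule.sum_mem _ fun i _ => ?_
  rcases i with _ | _ | k
  · rw [hQ0]; simp
  · rw [hQ1]; simp
  · refine Submodule.smul_mem _ _ ⟨P ^ (k + 2), ?_⟩
    exact pow_poly hP0 hP k

/-- Second-order estimate. -/
theorem sub_linear_isBigO {m : ℕ} {h : ℝ → ℝ} (hh : ContDiffAt ℝ (m + 2 : ℕ) h 0)
    (h0 : h 0 = 0) : (fun x => h x - deriv h 0 * x) =O[𝓝 0] fun x : ℝ => x ^ 2 := by
  have h2 : ContDiffAt ℝ (1 + 1 : ℕ) h 0 := hh.of_le (by exact_mod_cast (by omega : 1 + 1 ≤ m + 2))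
  have hd : ContDiffAt ℝ (0 + 1 : ℕ) (deriv h) 0 := contDiffAt_deriv h2
  have hd' : DifferentiableAt ℝ (deriv h) 0 :=
    (hd.differentiableAt (by simp))
  have h3 : (fun x => deriv h x - deriv h 0) =O[𝓝 0] fun x : ℝ => x := by
    simpa using hd'.isBigO_sub
  rw [isBigO_iff] at h3
  obtain ⟨C, hC⟩ := h3
  have := (eventually_hasDerivAt (m := 1) h2).and hC
  rw [Metric.eventually_nhds_iff_ball] at this
  obtain ⟨δ, hδ, hb⟩ := this
  refine IsBigO.of_bound |C| ?_
  rw [Metric.eventually_nhds_iff_ball]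
  refine ⟨δ, hδ, fun x hx => ?_⟩
  have hx' : |x| < δ := by simpa using hx
  have key := (convex_closedBall (0 : ℝ) |x|).norm_image_sub_le_of_norm_hasDerivWithin_le
    (f := fun x => h x - deriv h 0 * x) (f' := fun x => deriv h x - deriv h 0) (C := |C| * |x|)
    (x := 0) (y := x)
    (fun y hy => by
      have hy' : |y| ≤ |x| := by simpa using hy
      have h1 := (hb y (by simpa using lt_of_le_of_lt hy' hx')).1
      have h2 : HasDerivAt (fun x => deriv h 0 * x) (deriv h 0) y := by
        simpa using (hasDerivAt_id y).const_mul (deriv h 0)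
      exact (h1.sub h2).hasDerivWithinAt)
    (fun y hy => by
      have hy' : |y| ≤ |x| := by simpa using hy
      refine le_trans ((hb y (by simpa using lt_of_le_of_lt hy' hx')).2) ?_
      rw [Real.norm_eq_abs]
      gcongr
      exact le_abs_self C)
    (by simp) (by simp)
  simpa [h0, norm_pow, pow_two, mul_assoc] using key

/-- **Composition modulo `W`.** For `f, h` of class `C^r` near `0`, `r ≥ 2`, both fixing `0`,
`f ∘ h` is `f'(0) h + f (h'(0) x)` up to a polynomial and `O(x^(r+1))`. -/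
theorem comp_mem_W {m : ℕ} {f h : ℝ → ℝ} (hf : ContDiffAt ℝ (m + 2 : ℕ) f 0)
    (hh : ContDiffAt ℝ (m + 2 : ℕ) h 0) (f0 : f 0 = 0) (h0 : h 0 = 0) :
    (fun x => f (h x) - deriv f 0 * h x - f (deriv h 0 * x)) ∈ W (m + 2) := by
  obtain ⟨P, hP0, hP1, hP⟩ := exists_taylor (m + 1) f hf
  obtain ⟨R, hR0, hR1, hR⟩ := exists_taylor (m + 1) h hh
  rw [f0] at hP0
  rw [h0] at hR0
  have hRh : (fun x => h x - R.eval x) =o[𝓝 0] fun x => x ^ (m + 2) := by
    refine isLittleO_of_deriv ?_ hR (by simp [h0, hR0])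
    filter_upwards [eventually_hasDerivAt hh] with x hx
    exact hx.sub (R.hasDerivAt x)
  set a := deriv f 0 with ha
  set b := deriv h 0 with hb
  -- first part
  have hQ0 : (P - C a * X).coeff 0 = 0 := by
    rw [coeff_zero_eq_eval_zero]; simp [hP0]
  have hQ1 : (P - C a * X).coeff 1 = 0 := by
    have : P.coeff 1 = a := by
      rw [← hP1, ← coeff_zero_eq_eval_zero, coeff_derivative]; simp
    simp [this]
  have h1 := eval_comp_mem_W (m := m + 1) hR0 hRh (P - C a * X) hQ0 hQ1
  -- second part: the difference of the remainder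
  set φ : ℝ → ℝ := fun x => f x - P.eval x with hφ
  have h2 : (fun x => φ (h x) - φ (b * x)) ∈ W (m + 2) := by
    refine isBigO_mem_W ?_
    have hhx : h =O[𝓝 0] fun x : ℝ => x := by
      have hdiff : DifferentiableAt ℝ h 0 := hh.differentiableAt (by simp)
      simpa [h0] using hdiff.isBigO_sub
    have hsub := sub_linear_isBigO hh h0
    rw [isBigO_iff] at hhx hsub
    obtain ⟨C₁, hC₁⟩ := hhx
    obtain ⟨C₂, hC₂⟩ := hsub
    have hP' := (isLittleO_iff.1 hP) (zero_lt_one)
    have hev := (eventually_hasDerivAt (m := m + 1) hf).and hP'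
    rw [Metric.eventually_nhds_iff_ball] at hev
    obtain ⟨δ, hδ, hball⟩ := hev
    set K : ℝ := max (max |C₁| |b|) 1 with hK
    have hKpos : 0 < K := lt_of_lt_of_le one_pos (le_max_right _ _)
    refine IsBigO.of_bound (K ^ (m + 1) * |C₂|) ?_
    have hsmall : ∀ᶠ x in 𝓝 (0 : ℝ), |x| < δ / K := by
      have := Metric.ball_mem_nhds (0 : ℝ) (div_pos hδ hKpos)
      filter_upwards [this] with x hx
      simpa using hx
    filter_upwards [hC₁, hC₂, hsmall] with x hx1 hx2 hx3
    have hKx : K * |x| < δ := by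
      rw [lt_div_iff₀ hKpos] at hx3; linarith
    have hu : |h x| ≤ K * |x| := by
      refine le_trans hx1 ?_
      rw [Real.norm_eq_abs]
      have : C₁ ≤ K := le_trans (le_abs_self _) (le_trans (le_max_left _ _) (le_max_left _ _))
      gcongr
    have hv : |b * x| ≤ K * |x| := by
      rw [abs_mul]
      have : |b| ≤ K := le_trans (le_max_right _ _) (le_max_left _ _)
      gcongr
    have key := (convex_closedBall (0 : ℝ) (K * |x|)).norm_image_sub_le_of_norm_hasDerivWithin_le
      (f := φ) (f' := fun y => deriv f y - (derivative P).eval y) (C := (K * |x|) ^ (m + 1))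
      (x := b * x) (y := h x)
      (fun y hy => by
        have hy' : |y| ≤ K * |x| := by simpa using hy
        have h1 := (hball y (by simpa using lt_of_le_of_lt hy' hKx)).1
        exact (h1.sub (P.hasDerivAt y)).hasDerivWithinAt)
      (fun y hy => by
        have hy' : |y| ≤ K * |x| := by simpa using hy
        refine le_trans ((hball y (by simpa using lt_of_le_of_lt hy' hKx)).2) ?_
        rw [one_mul, norm_pow, Real.norm_eq_abs]
        gcongr)
      (by simpa using hv) (by simpa using hu)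
    have hx2' : ‖h x - b * x‖ ≤ |C₂| * |x| ^ 2 := by
      refine le_trans hx2 ?_
      rw [norm_pow, Real.norm_eq_abs]
      gcongr
      exact le_abs_self C₂
    calc ‖φ (h x) - φ (b * x)‖ ≤ (K * |x|) ^ (m + 1) * ‖h x - b * x‖ := key
      _ ≤ (K * |x|) ^ (m + 1) * (|C₂| * |x| ^ 2) := by gcongr
      _ = K ^ (m + 1) * |C₂| * ‖x ^ (m + 2 + 1)‖ := by
          rw [norm_pow, Real.norm_eq_abs]; ring
  -- the polynomial part
  have h3 : (fun x => (-P.comp (C b * X)).eval x) ∈ W (m + 2) := poly_mem_W _ _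
  have h4 : (fun x => (P.comp (C b * X)).eval x) ∈ W (m + 2) := poly_mem_W _ _
  have := Submodule.sub_mem _ (Submodule.add_mem _ h1 h2) h4
  convert this using 1
  funext x
  simp only [hφ, Pi.sub_apply, Pi.add_apply, eval_sub, eval_mul, eval_C, eval_X, eval_comp]
  ring

end GermDist46
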