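import Pool.Agent.LibGermDist46.Main

/-!
# Undistorted germs `q(x) + c x^r / log |x|`
-/

open Filter Topology Asymptotics Polynomial

namespace GermDist46

/-- Every `C^r` function fixing `0` with nonzero derivative represents an element of `G^r`. -/
theorem exists_germ {r : ℕ} (hr : 1 ≤ r) {f : ℝ → ℝ} (f0 : f 0 = 0) (hf : ContDiffAt ℝ r f 0)
    (hf' : deriv f 0 ≠ 0) : ∃ g : GermGroup r, Represents g f := by
  have hr0 : (r : WithTop ℕ∞) ≠ 0 := by
    have : r ≠ 0 := by omega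
    exact_mod_cast this
  have hd : HasDerivAt f (deriv f 0) 0 := (hf.differentiableAt hr0).hasDerivAt
  set e : ℝ ≃L[ℝ] ℝ := ContinuousLinearEquiv.unitsEquivAut ℝ (Units.mk0 (deriv f 0) hf') with he
  have hfd : HasFDerivAt f (e : ℝ →L[ℝ] ℝ) 0 := by
    have h1 := hd.hasFDerivAt
    have h2 : (e : ℝ →L[ℝ] ℝ) = ContinuousLinearMap.toSpanSingleton ℝ (deriv f 0) := by
      ext; simp [he]
    rw [h2]
    exact h1
  set k := hf.localInverse hfd hr0 with hk
  have hs := hf.hasStrictFDerivAt' hfd hr0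
  have hk1 : ∀ᶠ x in 𝓝 (0 : ℝ), k (f x) = x := hs.eventually_left_inverse
  have hk2 : ∀ᶠ x in 𝓝 (0 : ℝ), f (k x) = x := by
    have := hs.eventually_right_inverse
    rwa [f0] at this
  have hk0 : k 0 = 0 := by
    have := hf.localInverse_apply_image hfd hr0
    rwa [f0] at this
  have hkc : ContDiffAt ℝ r k 0 := by
    have := hf.to_localInverse hfd hr0
    rwa [f0] at this
  let F : CrFun r := ⟨f, f0, hf⟩
  let K : CrFun r := ⟨k, hk0, hkc⟩
  refine ⟨⟨(F : GermMonoid r), (K : GermMonoid r), ?_, ?_⟩, F, rfl, rfl⟩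
  · change ((F * K : CrFun r) : GermMonoid r) = ((1 : CrFun r) : GermMonoid r)
    rw [Con.eq]
    exact hk2
  · change ((K * F : CrFun r) : GermMonoid r) = ((1 : CrFun r) : GermMonoid r)
    rw [Con.eq]
    exact hk1

/-- `x ^ m * (1 / log x) ^ k`. -/
noncomputable def FF (m k : ℕ) (x : ℝ) : ℝ := x ^ m * ((Real.log x)⁻¹) ^ k

theorem FF_zero {m k : ℕ} (hk : 1 ≤ k) : FF m k 0 = 0 := by
  have : k ≠ 0 := by omega
  simp [FF, this]

theorem log_ne_zero_of_ball {x : ℝ} (hx : |x| < 1) (h0 : x ≠ 0) : Real.log x ≠ 0 := by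
  rw [← Real.log_abs]
  exact (Real.log_neg (abs_pos.2 h0) hx).ne

theorem continuousAt_FF {m k : ℕ} {x : ℝ} (hx : |x| < 1) :
    ContinuousAt (FF m k) x := by
  rcases eq_or_ne x 0 with rfl | h0
  · have h1 : Tendsto (fun x => (Real.log x)⁻¹) (𝓝[≠] 0) (𝓝 0) :=
      tendsto_inv_atBot_zero.comp Real.tendsto_log_nhdsNE_zero
    have h2 : ContinuousAt (fun x => (Real.log x)⁻¹) 0 := by
      rw [continuousAt_iff_punctured_nhds]
      simpa using h1
    unfold FF
    exact (continuousAt_id.pow m).mul (h2.pow k)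
  · unfold FF
    have h2 : ContinuousAt (fun x => (Real.log x)⁻¹) x :=
      (Real.continuousAt_log h0).inv₀ (log_ne_zero_of_ball hx h0)
    exact (continuousAt_id.pow m).mul (h2.pow k)

theorem hasDerivAt_FF {m k : ℕ} (hk : 1 ≤ k) {x : ℝ} (hx : |x| < 1) :
    HasDerivAt (FF (m + 1) k) ((m + 1) * FF m k x - k * FF m (k + 1) x) x := by
  rcases eq_or_ne x 0 with rfl | h0
  · rw [FF_zero hk, FF_zero (by omega : 1 ≤ k + 1), mul_zero, mul_zero, sub_zero]
    rw [hasDerivAt_iff_isLittleO]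
    have h1 : FF m k =o[𝓝 0] fun _ : ℝ => (1 : ℝ) := by
      rw [isLittleO_one_iff]
      have := (continuousAt_FF (m := m) (k := k) (x := 0) (by simp)).tendsto
      rwa [FF_zero hk] at this
    have h2 := (isBigO_refl (fun x : ℝ => x) (𝓝 0)).mul_isLittleO h1
    refine (h2.congr_left fun y => ?_).congr_right fun y => ?_
    · rw [FF_zero hk]
      simp only [FF, smul_eq_mul]; ring
    · simp
  · have hl := log_ne_zero_of_ball hx h0
    have h1 : HasDerivAt (fun x => (Real.log x)⁻¹) (-(x⁻¹) / (Real.log x) ^ 2) x :=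
      (Real.hasDerivAt_log h0).inv hl
    have h2 := (hasDerivAt_pow (m + 1) x).fun_mul (h1.fun_pow k)
    refine (h2.congr_deriv ?_)
    obtain ⟨j, rfl⟩ : ∃ j, k = j + 1 := ⟨k - 1, by omega⟩
    simp only [FF, Nat.add_sub_cancel]
    set u := (Real.log x)⁻¹ with hu
    have h3 : -x⁻¹ / Real.log x ^ 2 = -x⁻¹ * u ^ 2 := by
      rw [hu, inv_pow, div_eq_mul_inv]
    rw [h3]
    have h4 : x * x⁻¹ = 1 := mul_inv_cancel₀ h0
    have h5 : x ^ (m + 1) * (((j + 1 : ℕ) : ℝ) * u ^ j * (-x⁻¹ * u ^ 2)) =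
        -(((j + 1 : ℕ) : ℝ) * (x ^ m * u ^ (j + 1 + 1))) * (x * x⁻¹) := by ring
    rw [h5, h4]
    push_cast
    ring

theorem contDiffOn_FF (m : ℕ) : ∀ k : ℕ, 1 ≤ k → ContDiffOn ℝ m (FF m k) (Metric.ball 0 1) := by
  induction m with
  | zero =>
    intro k _
    rw [Nat.cast_zero, contDiffOn_zero]
    intro x hx
    exact (continuousAt_FF (by simpa using hx)).continuousWithinAt
  | succ m ih =>
    intro k hk
    rw [Nat.cast_add, Nat.cast_one, contDiffOn_succ_iff_deriv_of_isOpen Metric.isOpen_ball]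
    refine ⟨fun x hx => (hasDerivAt_FF hk
      (by simpa using hx)).differentiableAt.differentiableWithinAt, by simp, ?_⟩
    have h1 : ContDiffOn ℝ m (fun x => ((m : ℝ) + 1) * FF m k x - k * FF m (k + 1) x)
        (Metric.ball 0 1) :=
      (contDiffOn_const.mul (ih k hk)).sub (contDiffOn_const.mul (ih (k + 1) (by omega)))
    refine h1.congr fun x hx => ?_
    exact (hasDerivAt_FF hk (by simpa using hx)).deriv

theorem contDiffAt_FF (m : ℕ) : ContDiffAt ℝ m (FF m 1) 0 :=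
  (contDiffOn_FF m 1 le_rfl).contDiffAt (Metric.ball_mem_nhds 0 one_pos)

/-- A polynomial that is `o(x^r)` at `0` is `O(x^(r+1))`. -/
theorem poly_isBigO_of_isLittleO {r : ℕ} {p : ℝ[X]}
    (h : (fun x => p.eval x) =o[𝓝 0] fun x : ℝ => x ^ r) :
    (fun x => p.eval x) =O[𝓝 0] fun x : ℝ => x ^ (r + 1) := by
  rcases eq_or_ne p 0 with rfl | hp
  · simpa using isBigO_zero _ _
  obtain ⟨q, hq, hq0⟩ := Polynomial.exists_eq_pow_rootMultiplicity_mul_and_not_dvd p hp 0
  set k := p.rootMultiplicity 0 with hk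
  have hq1 : q.eval 0 ≠ 0 := by
    intro h0
    apply hq0
    exact Polynomial.dvd_iff_isRoot.2 h0
  have hpe : ∀ x, p.eval x = x ^ k * q.eval x := by
    intro x
    rw [hq]
    simp
  by_cases hkr : k ≤ r
  · exfalso
    -- `x^k` is `O(p)`, so `x^k = o(x^r)`
    have h1 : (fun x : ℝ => x ^ k) =O[𝓝 0] fun x => p.eval x := by
      have hcont : ContinuousAt (fun x => q.eval x) 0 := q.continuous.continuousAt
      have h2 : ∀ᶠ x in 𝓝 (0 : ℝ), |q.eval 0| / 2 < |q.eval x| := by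
        have := hcont.abs.tendsto.eventually (lt_mem_nhds (half_lt_self (abs_pos.2 hq1)))
        exact this
      refine IsBigO.of_bound (2 / |q.eval 0|) ?_
      filter_upwards [h2] with x hx
      rw [hpe, norm_mul, Real.norm_eq_abs, Real.norm_eq_abs]
      have hpos : 0 < |q.eval 0| := abs_pos.2 hq1
      have h3 : 1 ≤ 2 / |q.eval 0| * |q.eval x| := by
        rw [div_mul_eq_mul_div, le_div_iff₀ hpos]
        linarith
      nlinarith [abs_nonneg (x ^ k)]
    have h2 : (fun x : ℝ => x ^ k) =o[𝓝 0] fun x : ℝ => x ^ k :=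
      (h1.trans_isLittleO h).trans_isBigO (isBigO_pow_pow_nhds_zero hkr)
    refine isLittleO_irrefl ?_ h2
    have h3 : ∃ᶠ x in 𝓝[≠] (0 : ℝ), x ≠ 0 :=
      (eventually_mem_nhdsWithin : ∀ᶠ x in 𝓝[≠] (0 : ℝ), x ∈ ({0}ᶜ : Set ℝ)).frequently
    exact (h3.filter_mono nhdsWithin_le_nhds).mono fun x hx => pow_ne_zero k hx
  · push Not at hkr
    have h1 : (fun x : ℝ => q.eval x) =O[𝓝 0] fun _ : ℝ => (1 : ℝ) := by
      have hcont : ContinuousAt (fun x => q.eval x) 0 := q.continuous.continuousAt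
      exact hcont.isBigO_one ℝ
    have h2 : (fun x : ℝ => x ^ k) =O[𝓝 0] fun x : ℝ => x ^ (r + 1) :=
      isBigO_pow_pow_nhds_zero (by omega)
    refine ((h2.mul h1).congr_left fun x => ?_).congr_right fun x => ?_
    · exact (hpe x).symm
    · simp

/-- A nontrivial combination of the functions `1 / log (l x)`, `l > 0`, is not `O(x)` as
`x → 0+`. -/
theorem not_isBigO_sum {s : Finset ℝ} (hs : s.Nonempty) (c : ℝ → ℝ)
    (h : ∀ l ∈ s, 0 < l ∧ c l ≠ 0) :
    ¬ (fun x => ∑ l ∈ s, c l * (Real.log (l * x))⁻¹) =O[𝓝[>] 0] fun x : ℝ => x := by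
  classical
  intro hO
  have hexp : Tendsto (fun L : ℝ => Real.exp (-L)) atTop (𝓝[>] 0) := by
    rw [tendsto_nhdsWithin_iff]
    exact ⟨Real.tendsto_exp_neg_atTop_nhds_zero, Eventually.of_forall fun x => Real.exp_pos _⟩
  have h1 := hO.comp_tendsto hexp
  set D : ℝ[X] := ∏ l ∈ s, (C (Real.log l) - X) with hD
  set Q : ℝ[X] := ∑ l ∈ s, C (c l) * ∏ k ∈ s.erase l, (C (Real.log k) - X) with hQ
  -- `Q(L) = H(e^{-L}) D(L)` for large `L`
  have h2 : ∀ᶠ L : ℝ in atTop, Q.eval L =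
      (∑ l ∈ s, c l * (Real.log (l * Real.exp (-L)))⁻¹) * D.eval L := by
    have h3 : ∀ᶠ L : ℝ in atTop, ∀ l ∈ s, Real.log l < L := by
      rw [Finset.eventually_all]
      intro l _
      exact eventually_gt_atTop _
    filter_upwards [h3] with L hL
    rw [hQ, hD, eval_finsetSum, Finset.sum_mul]
    refine Finset.sum_congr rfl fun l hl => ?_
    rw [Real.log_mul (h l hl).1.ne' (Real.exp_pos _).ne', Real.log_exp, eval_mul, eval_C,
      eval_prod, eval_prod, ← Finset.mul_prod_erase s _ hl]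
    have h4 : Real.log l + -L ≠ 0 := by
      have := hL l hl
      linarith
    simp only [eval_sub, eval_C, eval_X]
    have h5 : (Real.log l + -L)⁻¹ * (Real.log l - L) = 1 := by
      rw [← sub_eq_add_neg] at h4 ⊢
      exact inv_mul_cancel₀ h4
    calc c l * ∏ x ∈ s.erase l, (Real.log x - L)
        = c l * ((Real.log l + -L)⁻¹ * (Real.log l - L)) *
          ∏ x ∈ s.erase l, (Real.log x - L) := by rw [h5, mul_one]
      _ = _ := by ring
  have h3 : Tendsto (fun L => Q.eval L) atTop (𝓝 0) := by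
    have h4 : (fun L => Q.eval L) =O[atTop] fun L => D.eval L / Real.exp L := by
      have h5 : (fun L : ℝ => (∑ l ∈ s, c l * (Real.log (l * Real.exp (-L)))⁻¹) * D.eval L)
          =O[atTop] fun L => Real.exp (-L) * D.eval L := h1.mul (isBigO_refl _ _)
      refine (EventuallyEq.trans_isBigO h2 h5).congr_right fun L => ?_
      rw [Real.exp_neg, div_eq_mul_inv, mul_comm]
    exact h4.trans_tendsto D.tendsto_div_exp_atTop
  have h4 : Q = 0 := by
    have := (Polynomial.tendsto_nhds_iff Q).1 h3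
    exact leadingCoeff_eq_zero.1 this.1
  obtain ⟨l, hl⟩ := hs
  have h5 : Q.eval (Real.log l) = 0 := by rw [h4, eval_zero]
  rw [hQ, eval_finsetSum, Finset.sum_eq_single l] at h5
  · rw [eval_mul, eval_C, eval_prod] at h5
    have h6 : ∏ k ∈ s.erase l, eval (Real.log l) (C (Real.log k) - X) ≠ 0 := by
      rw [Finset.prod_ne_zero_iff]
      intro k hk
      rw [Finset.mem_erase] at hk
      simp only [eval_sub, eval_C, eval_X]
      intro h7
      apply hk.1
      exact Real.log_injOn_pos (Set.mem_Ioi.2 (h k hk.2).1) (Set.mem_Ioi.2 (h l hl).1)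
        (by linarith)
    exact (mul_ne_zero (h l hl).2 h6) h5
  · intro k hk hkl
    rw [eval_mul, eval_prod]
    have : l ∈ s.erase k := Finset.mem_erase.2 ⟨fun h => hkl h.symm, hl⟩
    rw [Finset.prod_eq_zero this (by simp), mul_zero]
  · intro h'
    exact absurd hl h'

theorem FF_comp_isLittleO (r : ℕ) (l : ℝ) :
    (fun x => FF r 1 (l * x)) =o[𝓝 0] fun x : ℝ => x ^ r := by
  have h1 : FF 0 1 =o[𝓝 0] fun _ : ℝ => (1 : ℝ) := by
    rw [isLittleO_one_iff]
    have := (continuousAt_FF (m := 0) (k := 1) (x := 0) (by simp)).tendsto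
    rwa [FF_zero le_rfl] at this
  have h2 := h1.comp_tendsto (tendsto_mul_zero l)
  have h3 := ((isBigO_refl (fun x : ℝ => x ^ r) (𝓝 0)).const_mul_left (l ^ r)).mul_isLittleO h2
  refine (h3.congr_left fun x => ?_).congr_right fun x => by simp
  simp only [FF, Function.comp_apply, pow_zero, one_mul, mul_pow]

/-- **Undistorted germs.** For `r ≥ 2`, any `C^(r+1)` germ `q` tangent to the identity and any
`c ≠ 0`, the `C^r` germ `q(x) + c x^r / log |x|` is not a distortion element of `G^r`. -/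
theorem not_distortion {r : ℕ} (hr : 2 ≤ r) {q : ℝ → ℝ} (hq : ContDiffAt ℝ (r + 1 : ℕ) q 0)
    (q0 : q 0 = 0) (q1 : deriv q 0 = 1) {c : ℝ} (hc : c ≠ 0) :
    (∃ g : GermGroup r, Represents g (fun x => q x + c * (x ^ r / Real.log |x|))) ∧
    deriv (fun x => q x + c * (x ^ r / Real.log |x|)) 0 = 1 ∧
    ∀ g : GermGroup r, Represents g (fun x => q x + c * (x ^ r / Real.log |x|)) →
      ¬ IsDistortionElement g := by
  classical
  set f : ℝ → ℝ := fun x => q x + c * FF r 1 x with hf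
  have hfe : (fun x => q x + c * (x ^ r / Real.log |x|)) = f := by
    funext x
    simp only [hf, FF, Real.log_abs, pow_one, div_eq_mul_inv]
  rw [hfe]
  have f0 : f 0 = 0 := by simp [hf, q0, FF_zero]
  have hfc : ContDiffAt ℝ r f 0 := by
    have h1 : ContDiffAt ℝ r q 0 := hq.of_le (by exact_mod_cast Nat.le_succ r)
    exact h1.add (contDiffAt_const.mul (contDiffAt_FF r))
  have hf1 : deriv f 0 = 1 := by
    obtain ⟨m, rfl⟩ : ∃ m, r = m + 1 := ⟨r - 1, by omega⟩
    have h1 : HasDerivAt q (deriv q 0) 0 := (hq.differentiableAt (by simp)).hasDerivAt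
    have h2 := hasDerivAt_FF (m := m) (k := 1) le_rfl (x := 0) (by simp)
    have h3 := (h1.add (h2.const_mul c)).deriv
    have h4 : deriv f 0 = deriv q 0 + c * (((m : ℝ) + 1) * FF m 1 0 - ((1 : ℕ) : ℝ) * FF m (1 + 1) 0) :=
      h3
    rw [h4, q1, FF_zero le_rfl, FF_zero (by norm_num)]
    ring
  refine ⟨exists_germ (by omega) f0 hfc (by rw [hf1]; exact one_ne_zero), hf1, ?_⟩
  intro g hg hd
  obtain ⟨s, n, p, hs, hsn, hrel⟩ := relation_of_distortion hr hg hf1 hd
  -- Taylor polynomial of `q`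
  obtain ⟨P, hP0, -, hP⟩ := exists_taylor r q hq
  have hqP : (fun x => q x - P.eval x) =O[𝓝 0] fun x => x ^ (r + 1) := by
    refine (isLittleO_of_deriv ?_ hP (by simp [q0, hP0])).isBigO
    filter_upwards [eventually_hasDerivAt hq] with x hx
    exact hx.sub (P.hasDerivAt x)
  have hqP' : ∀ l : ℝ, (fun x => q (l * x) - P.eval (l * x)) =O[𝓝 0] fun x : ℝ => x ^ (r + 1) := by
    intro l
    have h1 := hqP.comp_tendsto (tendsto_mul_zero l)
    refine h1.trans ?_
    have h2 : ((fun x : ℝ => x ^ (r + 1)) ∘ fun x => l * x) = fun x => l ^ (r + 1) * x ^ (r + 1) := by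
      funext x; simp [mul_pow]
    rw [h2]
    exact (isBigO_refl _ _).const_mul_left _
  set p' : ℝ[X] := p - ∑ l ∈ s, C ((n l : ℝ) * l⁻¹) * P.comp (C l * X) with hp'
  set S : ℝ → ℝ := fun x => ∑ l ∈ s, (n l : ℝ) * l⁻¹ * c * FF r 1 (l * x) with hS
  have h1 : (fun x => S x - p'.eval x) =O[𝓝 0] fun x : ℝ => x ^ (r + 1) := by
    have h2 : (fun x => ∑ l ∈ s, (n l : ℝ) * l⁻¹ * (q (l * x) - P.eval (l * x))) =O[𝓝 0]
        fun x : ℝ => x ^ (r + 1) := IsBigO.fun_sum fun l _ => (hqP' l).const_mul_left _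
    refine (hrel.sub h2).congr_left fun x => ?_
    simp only [hS, hp', hf, eval_sub, eval_finsetSum, eval_mul, eval_C, eval_comp, eval_X]
    rw [sub_sub, add_comm, ← sub_sub, ← Finset.sum_sub_distrib, sub_sub_eq_add_sub,
      sub_left_inj, ← Finset.sum_add_distrib]
    refine Finset.sum_congr rfl fun l _ => ?_
    ring
  have h2 : S =o[𝓝 0] fun x : ℝ => x ^ r :=
    IsLittleO.fun_sum fun l _ => (FF_comp_isLittleO r l).const_mul_left _
  have h3 : (fun x => p'.eval x) =o[𝓝 0] fun x : ℝ => x ^ r := by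
    have h4 : (fun x => S x - p'.eval x) =o[𝓝 0] fun x : ℝ => x ^ r :=
      h1.trans_isLittleO (isLittleO_pow_pow (by omega))
    refine (h2.sub h4).congr_left fun x => by ring
  have h4 := poly_isBigO_of_isLittleO h3
  have h5 : S =O[𝓝 0] fun x : ℝ => x ^ (r + 1) := by
    refine (h1.add h4).congr_left fun x => by ring
  have h6 : S =O[𝓝[>] 0] fun x : ℝ => x ^ (r + 1) := h5.mono nhdsWithin_le_nhds
  refine not_isBigO_sum hs (fun l => (n l : ℝ) * l⁻¹ * c * l ^ r) ?_ ?_
  · intro l hl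
    obtain ⟨hl1, hl2⟩ := hsn l hl
    refine ⟨hl1, ?_⟩
    have : (n l : ℝ) ≠ 0 := by exact_mod_cast hl2
    have := hl1.ne'
    positivity
  · have h7 : (fun x : ℝ => (x ^ r)⁻¹ * S x) =O[𝓝[>] 0] fun x : ℝ => (x ^ r)⁻¹ * x ^ (r + 1) :=
      (isBigO_refl _ _).mul h6
    refine (EventuallyEq.trans_isBigO ?_ h7).trans (EventuallyEq.isBigO ?_)
    · filter_upwards [self_mem_nhdsWithin] with x hx
      have hx0 : x ≠ 0 := (Set.mem_Ioi.1 hx).ne'
      have hxr : x ^ r ≠ 0 := pow_ne_zero _ hx0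
      simp only [hS, FF, pow_one]
      rw [Finset.mul_sum]
      refine Finset.sum_congr rfl fun l _ => ?_
      rw [mul_pow]
      field_simp
    · filter_upwards [self_mem_nhdsWithin] with x hx
      have hx0 : x ≠ 0 := (Set.mem_Ioi.1 hx).ne'
      rw [pow_succ, ← mul_assoc, inv_mul_cancel₀ (pow_ne_zero _ hx0), one_mul]

end GermDist46
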