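import Pool.Agent.LibGermDist46.Defs
import Pool.Agent.LibGermDist46.Cross
import Pool.Agent.LibGermDist46.Alg

/-!
# The necessary criterion for distortion in `G^r`
-/

open Filter Topology Asymptotics Polynomial

namespace GermDist46

/-- Functions modulo `W r`. -/
abbrev V (r : ℕ) : Type := (ℝ → ℝ) ⧸ W r

/-- Rescaling `τ ↦ (x ↦ λ⁻¹ τ(λ x))` on functions. -/
noncomputable def scaleFun (l : ℝ) : (ℝ → ℝ) →ₗ[ℝ] (ℝ → ℝ) where
  toFun τ := fun x => l⁻¹ * τ (l * x)
  map_add' := by intro τ σ; funext x; simp [mul_add]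
  map_smul' := by intro c τ; funext x; simp [mul_left_comm]

theorem scaleFun_apply (l : ℝ) (τ : ℝ → ℝ) (x : ℝ) : scaleFun l τ x = l⁻¹ * τ (l * x) := rfl

theorem tendsto_mul_zero (l : ℝ) : Tendsto (fun x : ℝ => l * x) (𝓝 0) (𝓝 0) := by
  have : ContinuousAt (fun x : ℝ => l * x) 0 := by fun_prop
  simpa using this.tendsto

theorem scaleFun_mem (r : ℕ) (l : ℝ) {τ : ℝ → ℝ} (h : τ ∈ W r) : scaleFun l τ ∈ W r := by
  obtain ⟨p, hp⟩ := h
  refine ⟨C l⁻¹ * p.comp (C l * X), ?_⟩
  have h1 := (hp.comp_tendsto (tendsto_mul_zero l)).const_mul_left l⁻¹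
  have h2 : ((fun x : ℝ => x ^ (r + 1)) ∘ fun x => l * x) =O[𝓝 0] fun x : ℝ => x ^ (r + 1) := by
    have : ((fun x : ℝ => x ^ (r + 1)) ∘ fun x => l * x) = fun x => l ^ (r + 1) * x ^ (r + 1) := by
      funext x; simp [mul_pow]
    rw [this]
    exact (isBigO_refl _ _).const_mul_left _
  refine (h1.trans h2).congr_left fun x => ?_
  simp only [Function.comp_apply, scaleFun_apply, eval_mul, eval_C, eval_comp, eval_X]
  ring

/-- Rescaling on the quotient. -/
noncomputable def scale (r : ℕ) (l : ℝ) : V r →ₗ[ℝ] V r :=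
  Submodule.mapQ (W r) (W r) (scaleFun l) fun _ h => scaleFun_mem r l h

theorem scale_mk (r : ℕ) (l : ℝ) (τ : ℝ → ℝ) :
    scale r l (Submodule.Quotient.mk τ) = Submodule.Quotient.mk (scaleFun l τ) := rfl

theorem scale_scale (r : ℕ) {a b : ℝ} (v : V r) :
    scale r a (scale r b v) = scale r (a * b) v := by
  induction v using Submodule.Quotient.induction_on with
  | H τ =>
    rw [scale_mk, scale_mk, scale_mk]
    congr 1
    funext x
    simp only [scaleFun_apply, mul_inv]
    rw [← mul_assoc, ← mul_assoc, mul_comm b a]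

theorem scale_one (r : ℕ) (v : V r) : scale r 1 v = v := by
  induction v using Submodule.Quotient.induction_on with
  | H τ =>
    rw [scale_mk]
    congr 1
    funext x
    simp [scaleFun_apply]

/-- The representation of the additive group `ℝ` by rescalings `λ = exp μ`. -/
noncomputable def rep (r : ℕ) : Multiplicative ℝ →* Module.End ℤ (V r) where
  toFun μ := (scale r (Real.exp (Multiplicative.toAdd μ))).restrictScalars ℤ
  map_one' := by
    refine LinearMap.ext fun v => ?_
    change scale r (Real.exp 0) v = v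
    rw [Real.exp_zero, scale_one]
  map_mul' := by
    intro a b
    refine LinearMap.ext fun v => ?_
    change scale r (Real.exp (Multiplicative.toAdd a + Multiplicative.toAdd b)) v =
      scale r (Real.exp (Multiplicative.toAdd a)) (scale r (Real.exp (Multiplicative.toAdd b)) v)
    rw [scale_scale, Real.exp_add]

/-- The ring homomorphism from the group ring to the endomorphisms of `V r`. -/
noncomputable def repHom (r : ℕ) : GR →+* Module.End ℤ (V r) :=
  (AddMonoidAlgebra.lift ℤ (Module.End ℤ (V r)) ℝ (rep r)).toRingHom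

/-- The group ring acts on `V r`. -/
noncomputable instance moduleGR (r : ℕ) : Module GR (V r) :=
  Module.compHom (V r) (repHom r)

theorem smul_def' (r : ℕ) (c : GR) (v : V r) : c • v = repHom r c v := rfl

theorem single_smul (r : ℕ) (μ : ℝ) (v : V r) :
    (AddMonoidAlgebra.single μ (1 : ℤ) : GR) • v = scale r (Real.exp μ) v := by
  have h : repHom r (AddMonoidAlgebra.single μ (1 : ℤ)) = (1 : ℤ) • rep r (Multiplicative.ofAdd μ) :=
    AddMonoidAlgebra.lift_single _ _ _
  rw [smul_def', h, one_smul]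
  rfl

theorem smul_eq_sum (r : ℕ) (c : GR) (v : V r) :
    c • v = ∑ μ ∈ c.coeff.support, (c.coeff μ) • scale r (Real.exp μ) v := by
  have h : repHom r c = c.coeff.sum fun μ b => b • rep r (Multiplicative.ofAdd μ) :=
    AddMonoidAlgebra.lift_apply _ _
  rw [smul_def', h, Finsupp.sum, LinearMap.sum_apply]
  rfl

end GermDist46
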