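import Mathlib

/-!
# Taylor-type estimates for compositions, modulo polynomials and `O(x^(r+1))`
-/

open Filter Topology Asymptotics Polynomial

namespace GermDist46

theorem exists_antideriv (Q : ℝ[X]) (c : ℝ) :
    ∃ P : ℝ[X], derivative P = Q ∧ P.eval 0 = c := by
  suffices h : ∃ P : ℝ[X], derivative P = Q by
    obtain ⟨P, hP⟩ := h
    refine ⟨P + C (c - P.eval 0), by simp [hP], by simp⟩
  induction Q using Polynomial.induction_on' with
  | add p q hp hq =>
    obtain ⟨P, hP⟩ := hp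
    obtain ⟨R, hR⟩ := hq
    exact ⟨P + R, by simp [hP, hR]⟩
  | monomial n a =>
    refine ⟨monomial (n + 1) (a / (n + 1)), ?_⟩
    rw [derivative_monomial]
    have : (n : ℝ) + 1 ≠ 0 := by positivity
    simp only [Nat.add_sub_cancel, Nat.cast_add, Nat.cast_one]
    congr 1
    field_simp

theorem isBigO_pow_pow_nhds_zero {a b : ℕ} (h : b ≤ a) :
    (fun x : ℝ => x ^ a) =O[𝓝 0] fun x : ℝ => x ^ b := by
  rcases h.eq_or_lt with h | h
  · rw [h]
  · exact (isLittleO_pow_pow h).isBigO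

/-- Integrating a `o(x^m)` derivative. -/
theorem isLittleO_of_deriv {φ φ' : ℝ → ℝ} {m : ℕ}
    (h : ∀ᶠ x in 𝓝 (0 : ℝ), HasDerivAt φ (φ' x) x) (h' : φ' =o[𝓝 0] fun x => x ^ m)
    (h0 : φ 0 = 0) : φ =o[𝓝 0] fun x => x ^ (m + 1) := by
  rw [isLittleO_iff] at h' ⊢
  intro c hc
  have := h.and (h' hc)
  rw [Metric.eventually_nhds_iff_ball] at this ⊢
  obtain ⟨δ, hδ, hb⟩ := this
  refine ⟨δ, hδ, fun x hx => ?_⟩
  have hx' : |x| < δ := by simpa using hx
  have key := (convex_closedBall (0 : ℝ) |x|).norm_image_sub_le_of_norm_hasDerivWithin_le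
    (f := φ) (f' := φ') (C := c * |x| ^ m) (x := 0) (y := x)
    (fun y hy => by
      have hy' : |y| ≤ |x| := by simpa using hy
      exact ((hb y (by simpa using lt_of_le_of_lt hy' hx')).1).hasDerivWithinAt)
    (fun y hy => by
      have hy' : |y| ≤ |x| := by simpa using hy
      refine le_trans ((hb y (by simpa using lt_of_le_of_lt hy' hx')).2) ?_
      rw [norm_pow, Real.norm_eq_abs]
      gcongr)
    (by simp) (by simp)
  rw [h0] at key
  simpa [norm_pow, pow_succ, mul_assoc] using key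

theorem eventually_hasDerivAt {f : ℝ → ℝ} {m : ℕ} (hf : ContDiffAt ℝ (m + 1 : ℕ) f 0) :
    ∀ᶠ x in 𝓝 (0 : ℝ), HasDerivAt f (deriv f x) x := by
  have h1 : ContDiffAt ℝ 1 f 0 := hf.of_le (by exact_mod_cast Nat.le_add_left 1 m)
  have := h1.eventually (by simp)
  filter_upwards [this] with x hx
  exact (hx.differentiableAt (by simp)).hasDerivAt

theorem contDiffAt_deriv {f : ℝ → ℝ} {m : ℕ} (hf : ContDiffAt ℝ (m + 1 : ℕ) f 0) :
    ContDiffAt ℝ m (deriv f) 0 := by
  have : ContDiffAt ℝ m (fderiv ℝ f) 0 := hf.fderiv_right (by exact_mod_cast le_refl _)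
  have h2 : ContDiffAt ℝ m (fun x => fderiv ℝ f x 1) 0 := this.clm_apply contDiffAt_const
  exact h2

/-- Taylor expansion with control of the derivative of the remainder. -/
theorem exists_taylor (m : ℕ) : ∀ f : ℝ → ℝ, ContDiffAt ℝ (m + 1 : ℕ) f 0 →
    ∃ P : ℝ[X], P.eval 0 = f 0 ∧ (derivative P).eval 0 = deriv f 0 ∧
      (fun x => deriv f x - (derivative P).eval x) =o[𝓝 0] fun x => x ^ m := by
  induction m with
  | zero =>
    intro f hf
    obtain ⟨P, hP, hP0⟩ := exists_antideriv (C (deriv f 0)) (f 0)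
    refine ⟨P, hP0, by simp [hP], ?_⟩
    have hc : ContinuousAt (deriv f) 0 := (contDiffAt_deriv hf).continuousAt
    simp only [hP, eval_C, pow_zero]
    rw [isLittleO_one_iff]
    have := hc.tendsto.sub_const (deriv f 0)
    simpa using this
  | succ m ih =>
    intro f hf
    have hd : ContDiffAt ℝ (m + 1 : ℕ) (deriv f) 0 := contDiffAt_deriv hf
    obtain ⟨Q, hQ0, -, hQ⟩ := ih (deriv f) hd
    obtain ⟨P, hP, hP0⟩ := exists_antideriv Q (f 0)
    refine ⟨P, hP0, by rw [hP, hQ0], ?_⟩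
    rw [hP]
    refine isLittleO_of_deriv (φ' := fun x => deriv (deriv f) x - (derivative Q).eval x)
      ?_ hQ (by simp [hQ0])
    filter_upwards [eventually_hasDerivAt hd] with x hx
    exact hx.sub (Q.hasDerivAt x)

/-- The subspace of functions that agree with a polynomial up to `O(x^(r+1))` at `0`. -/
def W (r : ℕ) : Submodule ℝ (ℝ → ℝ) where
  carrier := {τ | ∃ p : ℝ[X], (fun x => τ x - p.eval x) =O[𝓝 0] fun x => x ^ (r + 1)}
  add_mem' := by
    rintro τ σ ⟨p, hp⟩ ⟨q, hq⟩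
    refine ⟨p + q, (hp.add hq).congr_left fun x => ?_⟩
    simp only [Pi.add_apply, eval_add]; ring
  zero_mem' := ⟨0, by simpa using isBigO_zero _ _⟩
  smul_mem' := by
    rintro c τ ⟨p, hp⟩
    refine ⟨C c * p, (hp.const_mul_left c).congr_left fun x => ?_⟩
    simp only [Pi.smul_apply, smul_eq_mul, eval_mul, eval_C]; ring

theorem mem_W {r : ℕ} {τ : ℝ → ℝ} :
    τ ∈ W r ↔ ∃ p : ℝ[X], (fun x => τ x - p.eval x) =O[𝓝 0] fun x => x ^ (r + 1) := Iff.rfl

theorem poly_mem_W (r : ℕ) (p : ℝ[X]) : (fun x => p.eval x) ∈ W r :=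
  ⟨p, by simpa using isBigO_zero _ _⟩

theorem isBigO_mem_W {r : ℕ} {τ : ℝ → ℝ} (h : τ =O[𝓝 0] fun x => x ^ (r + 1)) : τ ∈ W r :=
  ⟨0, by simpa using h⟩

theorem poly_isBigO {p : ℝ[X]} (hp : p.eval 0 = 0) : (fun x => p.eval x) =O[𝓝 0] fun x : ℝ => x := by
  have hd : DifferentiableAt ℝ (fun x => p.eval x) 0 := p.differentiableAt
  have := hd.isBigO_sub
  simpa [hp] using this

theorem poly_isBigO_one (p : ℝ[X]) : (fun x => p.eval x) =O[𝓝 0] fun _ : ℝ => (1 : ℝ) :=
  (p.continuous.continuousAt).norm.isBoundedUnder_le.isBigO_one ℝ |>.trans (isBigO_refl _ _)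

end GermDist46
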